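import Pool.Agent.TH688.RIndMid

set_option autoImplicit false

/-!
# Constant-factor approximation of `r`-independent sets in continuous graphs: the dichotomy

Definitions: `Pool/Agent/H688R2/RInd/Defs.lean` and `Pool/Agent/NPC/Defs.lean`.
-/

namespace Pool.Agent.Results.MP_10a207_lc.Dichotomy

open Pool.Agent.H688R2.RInd Pool.Agent.NPC Pool.Agent.TH688.RInd Pool.Agent.TH688.Mis

/-- `P = NP`. -/
def PEqNP : Prop := ∀ L : Set (List Bool), InNP L → InP L

/-- There are a constant `c > 0` and a polynomial-time algorithm which, given a finite graph,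
returns an `r`-independent set of the continuous graph of size at least `c` times the
`r`-independence number. -/
def ConstApprox (r : ℝ) : Prop := ∃ c : ℝ, 0 < c ∧ RApprox (fun _ => True) r c

/-- For a rational `r > 0`, the maximum `r`-independent set problem has a polynomial-time
constant-factor approximation algorithm if and only if `r ≤ 1` or `P = NP`. Hence question Q1 (such
an algorithm for every rational `r > 0`) has a positive answer if and only if `P = NP`. -/
theorem result :
    (∀ r : ℚ, 0 < r → (ConstApprox r ↔ (r ≤ 1 ∨ PEqNP))) ∧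
    ((∀ r : ℚ, 0 < r → ConstApprox r) ↔ PEqNP) := by
  have main : ∀ r : ℚ, 0 < r → (ConstApprox r ↔ (r ≤ 1 ∨ PEqNP)) := by
    intro r hr
    have small : r ≤ 1 / 2 → ConstApprox r := by
      intro h2
      refine rapprox_mid (by exact_mod_cast hr) ?_
      have h3 : (r : ℝ) ≤ ((1 / 2 : ℚ) : ℝ) := by exact_mod_cast h2
      simpa using h3
    constructor
    · rintro ⟨c, hc, F, hF, hs⟩
      by_cases h1 : r ≤ 1
      · exact Or.inl h1
      · push Not at h1
        have h2 : (1 : ℝ) < r := by exact_mod_cast h1
        exact Or.inr (collapse_of_misApprox hc (mis_of_r h2 ⟨F, hF, fun A _ => hs A trivial⟩))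
    · rintro (h1 | h1)
      · by_cases h2 : r ≤ 1 / 2
        · exact small h2
        · push Not at h2
          refine ⟨1 / 3, by norm_num, r_approx ?_ (by exact_mod_cast h1)⟩
          have h3 : ((1 / 2 : ℚ) : ℝ) < r := by exact_mod_cast h2
          simpa using h3
      · by_cases h2 : r ≤ 1 / 2
        · exact small h2
        · push Not at h2
          exact rapprox_of_collapse h1 h2
  refine ⟨main, fun h => ?_, fun h r hr => (main r hr).2 (Or.inr h)⟩
  rcases (main 2 (by norm_num)).1 (h 2 (by norm_num)) with h1 | h1
  · norm_num at h1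
  · exact h1

end Pool.Agent.Results.MP_10a207_lc.Dichotomy
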